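import Pool.Agent.Lib.TGJ_h12.Lem3
import Pool.Agent.Lib.TGJ_h11.DerPl
import Pool.Agent.Lib.TGJ_h11.ExD3

/-!
# TANK G, block C, row R10: `Agree` and `Lem3` from F1, F2, Perm, R1 and R4
-/

set_option autoImplicit false

namespace Pool.Agent.TGJ

universe u

variable {k K : Type u} [Field k] [Field K] [Algebra k K]

theorem H12.divFin : H12.DivFin k K := fun _ _ hS g hg => hS.finite_div g fun h => hg (by
  rw [h]
  rfl)

/-- **`Agree`** from F1 and F2. -/
theorem agree (f1 : F1 k K) (f2 : F2 k K) : Agree k K := agree_of f1 f2 H12.divFin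

/-- **`Lem3`** from F1, F2, Perm, R1 and R4. -/
theorem lem3 (f1 : F1 k K) (f2 : F2 k K) (pm : Perm k) (h1 : InR1 k K) (h4 : InR4 k K) :
    Lem3 k K :=
  lem3_of f1 f2 pm (derPl f2 pm) (exDual_of' h1 h4) H12.divFin
    fun _ S res hS n hn f hf => rho_pos_of h1 h4 S res hS n hn f hf

end Pool.Agent.TGJ
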