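import Pool.Agent.Lib.TGJ.Iface

/-!
# TANK G, block C, row R10: `Agree`

`I(w; div g) = ∑ j, μ_j ord_{v_j} g`, where `v_j` are the places of the curve `w = 0` through the
point.
-/

set_option autoImplicit false

namespace Pool.Agent.TGJ.H12

open Pool.Agent.TG (ncl Ov ZDim)
open Pool.Agent.TGh4

universe u

open scoped WithZero

section ordZ

theorem ordZ_cast {x : ℤᵐ⁰} (h0 : x ≠ 0) (h1 : x ≤ 1) : (ordZ x : ℤ) = -(WithZero.log x) := by
  have h2 : WithZero.log x ≤ 0 := by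
    have h3 := (WithZero.log_le_log h0 one_ne_zero).2 h1
    rwa [WithZero.log_one] at h3
  unfold ordZ
  rw [Int.toNat_of_nonneg (by omega)]

theorem ordZ_mul {x y : ℤᵐ⁰} (hx : x ≠ 0) (hy : y ≠ 0) (hx1 : x ≤ 1) (hy1 : y ≤ 1) :
    (ordZ (x * y) : ℤ) = ordZ x + ordZ y := by
  rw [ordZ_cast (mul_ne_zero hx hy) (mul_le_one' hx1 hy1), ordZ_cast hx hx1, ordZ_cast hy hy1,
    WithZero.log_mul hx hy]
  ring

@[simp] theorem ordZ_one : ordZ (1 : ℤᵐ⁰) = 0 := by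
  unfold ordZ
  rw [WithZero.log_one]
  rfl

theorem ordZ_pow {x : ℤᵐ⁰} (hx : x ≠ 0) (hx1 : x ≤ 1) (n : ℕ) :
    (ordZ (x ^ n) : ℤ) = n * ordZ x := by
  rw [ordZ_cast (pow_ne_zero n hx) (pow_le_one' hx1 n), ordZ_cast hx hx1, WithZero.log_pow]
  simp

theorem ordZ_le {x y : ℤᵐ⁰} (hx : x ≠ 0) (hy : y ≠ 0) (hx1 : x ≤ 1) (hy1 : y ≤ 1) (h : x ≤ y) :
    ordZ y ≤ ordZ x := by
  have h1 := (WithZero.log_le_log hx hy).2 h
  have h2 := ordZ_cast hx hx1
  have h3 := ordZ_cast hy hy1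
  omega

end ordZ

variable {k K : Type u} [Field k] [Field K] [Algebra k K]

/-- The order of an element of `S` on the prime divisors of `S`. -/
theorem IsOrd_ordV {V : ValuationSubring K} (hV : Disc V) : IsOrd V.toSubring (ordV V) where
  mul x y hx hy := ordV_mul V hx hy
  mem x hx := mem_iff hV hx

variable {S : Subalgebra k K} {res : S →ₐ[k] k}

theorem ordV_eq_zero_of_notMem {V : ValuationSubring K} (hV : IsDiv S V) {g : S}
    (hg : g ∉ cen S V) : ordV V (g : K) = 0 := by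
  rw [mem_cen hV.le] at hg
  by_cases h0 : (g : K) = 0
  · rw [h0, map_zero] at hg
    exact absurd zero_lt_one hg
  · refine (ordV_eq_zero_iff hV.disc h0).2 (le_antisymm ?_ (not_lt.1 hg))
    exact (V.valuation_le_one_iff _).2 (hV.le _ g.2)

theorem ordV_pos_of_mem {V : ValuationSubring K} (hV : IsDiv S V) {g : S} (h0 : (g : K) ≠ 0)
    (hg : g ∈ cen S V) : 0 < ordV V (g : K) := by
  rw [mem_cen hV.le] at hg
  exact (lt_one_iff hV.disc h0).1 hg

theorem notMem_cen_of_res (hS : NPt S res) {V : ValuationSubring K} (hV : IsDiv S V) {g : S}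
    (hg : res g ≠ 0) : g ∉ cen S V := by
  rw [mem_cen hV.le]
  intro h1
  have h0 : (g : K) ≠ 0 := by
    intro h
    apply hg
    have : g = 0 := Subtype.ext h
    rw [this, map_zero]
  have h2 : V.valuation (g : K)⁻¹ ≤ 1 := (V.valuation_le_one_iff _).2 (hV.le _ (hS.inv g hg))
  have h3 : V.valuation (g : K) * V.valuation (g : K)⁻¹ = 1 := by
    rw [← map_mul, mul_inv_cancel₀ h0, map_one]
  exact absurd h3 (mul_lt_one_of_lt_of_le h1 h2).ne

/-- Sum over the prime divisors as a finite sum. -/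
theorem finsum_eq {M : Type*} [AddCommMonoid M] (F : ValuationSubring K → M)
    (T : Finset (ValuationSubring K)) (hT : ∀ V ∈ T, IsDiv S V)
    (hF : ∀ V, IsDiv S V → V ∉ T → F V = 0) :
    ∑ᶠ V ∈ {V : ValuationSubring K | IsDiv S V}, F V = ∑ V ∈ T, F V := by
  refine finsum_mem_eq_sum_of_inter_support_eq F ?_
  ext V
  constructor
  · rintro ⟨h1, h2⟩
    refine ⟨?_, h2⟩
    by_contra h3
    exact h2 (hF V h1 h3)
  · rintro ⟨h1, h2⟩
    exact ⟨hT V h1, h2⟩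

/-- The prime divisors through `g = 0` are finite in number (R5). -/
def DivFin (k K : Type u) [Field k] [Field K] [Algebra k K] : Prop :=
  ∀ (S : Subalgebra k K) (res : S →ₐ[k] k), NPt S res → ∀ g : S, (g : K) ≠ 0 →
    {V : ValuationSubring K | IsDiv S V ∧ g ∈ cen S V}.Finite

/-- The places of the curve `w = 0` with their weights. -/
structure Cv (S : Subalgebra k K) (res : S →ₐ[k] k) {m : ℕ} (w : Fin m → S) {J : Type}
    [Fintype J] (μ : J → ℕ) (v : J → Valuation S ℤᵐ⁰) : Prop where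
  pos : ∀ j, 0 < μ j
  cv : ∀ j, IsCv res (v j)
  zero : ∀ j i, v j (w i) = 0
  all : ∀ v' : Valuation S ℤᵐ⁰, IsCv res v' → (∀ i, v' (w i) = 0) → ∃ j, v'.IsEquiv (v j)
  prop : ∀ g : S, res g = 0 →
      (Proper S.val res (Fin.cons g w : Fin (m + 1) → S) ↔ ∀ j, v j g ≠ 0)
  rho : ∀ g : S, res g = 0 → (∀ j, v j g ≠ 0) →
      Rho S.val res (Fin.cons g w : Fin (m + 1) → S) = ∑ j, μ j * ordZ (v j g)

theorem exists_Cv [IsAlgClosed k] (f2 : F2 k K) (hS : NPt S res) {m : ℕ}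
    (hm : Algebra.trdeg k K = (m + 1 : ℕ)) {w : Fin m → S}
    (hw : ∃ g, Proper S.val res (Fin.cons g w : Fin (m + 1) → S)) :
    ∃ (J : Type) (_ : Fintype J) (μ : J → ℕ) (v : J → Valuation S ℤᵐ⁰), Cv S res w μ v := by
  obtain ⟨g, hg⟩ := hw
  obtain ⟨J, iJ, μ, v, h1, h2, h3, h4⟩ := (f2 inferInstance S res hS m).1 hm g w hg
  have h0 : ∀ (v' : Valuation S ℤᵐ⁰) (a : S), S.val a = 0 → v' a = 0 := by
    intro v' a ha
    have : a = 0 := Subtype.ext ha
    rw [this, map_zero]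
  exact ⟨J, iJ, μ, v, ⟨fun j => (h1 j).1, fun j => (h1 j).2.1, fun j => (h1 j).2.2.2,
    fun v' ha hb => h2 v' ha (h0 v') hb, h3, h4⟩⟩

section main

variable [IsAlgClosed k] {m : ℕ} {w : Fin m → S} {J : Type} [Fintype J] {μ : J → ℕ}
  {v : J → Valuation S ℤᵐ⁰}

/-- **`I(w; div g) = ∑ μ_j ord_{v_j} g`**. -/
theorem I_eq (f1 : F1 k K) (df : DivFin k K) (hS : NPt S res)
    (hm : Algebra.trdeg k K = (m + 1 : ℕ)) (C : Cv S res w μ v) {g : S} (h0 : (g : K) ≠ 0)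
    (hg : ∀ j, v j g ≠ 0) :
    ∑ᶠ V ∈ {V : ValuationSubring K | IsDiv S V}, ordV V (g : K) * (RhoV S V res w : ℤ) =
      ∑ j, (μ j : ℤ) * ordZ (v j g) := by
  classical
  by_cases hr : res g = 0
  · have h1 := (f1 inferInstance S res hS m hm g w ((C.prop g hr).2 hg)).2
    rw [C.rho g hr hg] at h1
    have hfin := df S res hS g h0
    have hT : ∀ V ∈ hfin.toFinset, IsDiv S V := fun V hV => (hfin.mem_toFinset.1 hV).1
    have hN : ∀ V, IsDiv S V → V ∉ hfin.toFinset → ordV V (g : K) = 0 := fun V hV hVT =>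
      ordV_eq_zero_of_notMem hV fun h => hVT (hfin.mem_toFinset.2 ⟨hV, h⟩)
    rw [finsum_eq _ hfin.toFinset hT fun V hV hVT => by rw [hN V hV hVT]; simp] at h1
    rw [finsum_eq _ hfin.toFinset hT fun V hV hVT => by rw [hN V hV hVT]; simp]
    have h2 := congrArg (Nat.cast : ℕ → ℤ) h1
    push_cast at h2
    rw [h2]
    refine Finset.sum_congr rfl fun V hV => ?_
    rw [Int.toNat_of_nonneg (ordV_nonneg_of_mem ((hT V hV).le _ g.2))]
  · rw [finsum_eq _ ∅ (fun V hV => absurd hV (Finset.notMem_empty V)) fun V hV _ => by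
      rw [ordV_eq_zero_of_notMem hV (notMem_cen_of_res hS hV hr), zero_mul]]
    rw [Finset.sum_empty, eq_comm]
    refine Finset.sum_eq_zero fun j _ => ?_
    rw [(C.cv j).one g hr, ordZ_one]
    simp

/-- The same for fractions. -/
theorem I_div (f1 : F1 k K) (df : DivFin k K) (hS : NPt S res)
    (hm : Algebra.trdeg k K = (m + 1 : ℕ)) (C : Cv S res w μ v) {g₁ g₂ : S}
    (hg₁ : ∀ j, v j g₁ ≠ 0) (hg₂ : ∀ j, v j g₂ ≠ 0) :
    ∑ᶠ V ∈ {V : ValuationSubring K | IsDiv S V},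
        ordV V ((g₁ : K) / g₂) * (RhoV S V res w : ℤ) =
      ∑ j, (μ j : ℤ) * ((ordZ (v j g₁) : ℤ) - ordZ (v j g₂)) := by
  classical
  by_cases h1 : (g₁ : K) = 0
  · have h2 : g₁ = 0 := Subtype.ext h1
    have h3 : IsEmpty J := ⟨fun j => hg₁ j (by rw [h2, map_zero])⟩
    rw [h1, zero_div]
    simp
  by_cases h2 : (g₂ : K) = 0
  · have h2' : g₂ = 0 := Subtype.ext h2
    have h3 : IsEmpty J := ⟨fun j => hg₂ j (by rw [h2', map_zero])⟩
    rw [h2, div_zero]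
    simp
  have e1 := I_eq f1 df hS hm C h1 hg₁
  have e2 := I_eq f1 df hS hm C h2 hg₂
  have hf1 := df S res hS g₁ h1
  have hf2 := df S res hS g₂ h2
  set T := hf1.toFinset ∪ hf2.toFinset with hTdef
  have hT : ∀ V ∈ T, IsDiv S V := by
    intro V hV
    rcases Finset.mem_union.1 hV with h | h
    · exact (hf1.mem_toFinset.1 h).1
    · exact (hf2.mem_toFinset.1 h).1
  have hN1 : ∀ V, IsDiv S V → V ∉ T → ordV V (g₁ : K) = 0 := fun V hV hVT =>
    ordV_eq_zero_of_notMem hV fun h => hVT (Finset.mem_union_left _ (hf1.mem_toFinset.2 ⟨hV, h⟩))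
  have hN2 : ∀ V, IsDiv S V → V ∉ T → ordV V (g₂ : K) = 0 := fun V hV hVT =>
    ordV_eq_zero_of_notMem hV fun h => hVT (Finset.mem_union_right _ (hf2.mem_toFinset.2 ⟨hV, h⟩))
  rw [finsum_eq _ T hT fun V hV hVT => by rw [hN1 V hV hVT, zero_mul]] at e1
  rw [finsum_eq _ T hT fun V hV hVT => by rw [hN2 V hV hVT, zero_mul]] at e2
  rw [finsum_eq _ T hT fun V hV hVT => by
    rw [ordV_div V h1 h2, hN1 V hV hVT, hN2 V hV hVT, sub_zero, zero_mul]]
  have e3 : ∀ V ∈ T, ordV V ((g₁ : K) / g₂) * (RhoV S V res w : ℤ) =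
      ordV V (g₁ : K) * (RhoV S V res w : ℤ) - ordV V (g₂ : K) * (RhoV S V res w : ℤ) := by
    intro V _
    rw [ordV_div V h1 h2]
    ring
  rw [Finset.sum_congr rfl e3, Finset.sum_sub_distrib, e1, e2, ← Finset.sum_sub_distrib]
  exact Finset.sum_congr rfl fun j _ => by ring

end main

end Pool.Agent.TGJ.H12

namespace Pool.Agent.TGJ

/-- **Row R10: `Agree`.** -/
theorem agree_of {k K : Type _} [Field k] [Field K] [Algebra k K] (f1 : F1 k K) (f2 : F2 k K)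
    (df : H12.DivFin k K) : Agree k K := by
  intro hk S res hS m hm w hw g₁ g₂ g₁' g₂' hv
  obtain ⟨J, iJ, μ, v, C⟩ := H12.exists_Cv f2 hS hm hw
  have h1 : ∀ j, v j g₁ ≠ 0 := fun j => (hv (v j) (C.cv j) (C.zero j)).1
  have h2 : ∀ j, v j g₂ ≠ 0 := fun j => (hv (v j) (C.cv j) (C.zero j)).2.1
  have h3 : ∀ j, v j g₁' ≠ 0 := fun j => (hv (v j) (C.cv j) (C.zero j)).2.2.1
  have h4 : ∀ j, v j g₂' ≠ 0 := fun j => (hv (v j) (C.cv j) (C.zero j)).2.2.2.1
  have h5 : ∀ j, v j g₁ * v j g₂' = v j g₁' * v j g₂ := fun j =>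
    (hv (v j) (C.cv j) (C.zero j)).2.2.2.2
  rw [H12.I_div f1 df hS hm C h1 h2, H12.I_div f1 df hS hm C h3 h4]
  refine Finset.sum_congr rfl fun j _ => ?_
  have e1 := H12.ordZ_mul (h1 j) (h4 j) ((C.cv j).le _) ((C.cv j).le _)
  have e2 := H12.ordZ_mul (h3 j) (h2 j) ((C.cv j).le _) ((C.cv j).le _)
  rw [h5 j] at e1
  have e3 : (ordZ (v j g₁) : ℤ) - ordZ (v j g₂) = (ordZ (v j g₁') : ℤ) - ordZ (v j g₂') := by
    omega
  rw [e3]

end Pool.Agent.TGJ
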