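import Pool.Agent.Lib.TGJ_h12.Agree

/-!
# TANK G, block C, row R10: `Lem3`

The bad vectors `c` form a finite set (`DerPl`) which is stable under the semilinear automorphisms;
a moving vector is not bad.  Then `R_f' = R_f + div (D_i G)` and
`I(w; div (D_i G)) ≤ N ρ(f)`.
-/

set_option autoImplicit false

namespace Pool.Agent.TGJ.H12

open Pool.Agent.TG (ncl Ov ZDim)
open Pool.Agent.TGh4

universe u

open scoped WithZero

variable {k K : Type u} [Field k] [Field K] [Algebra k K]

/-- `ρ > 0` for a system of parameters. -/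
def RhoPos (k K : Type u) [Field k] [Field K] [Algebra k K] : Prop :=
  IsAlgClosed k →
  ∀ (S : Subalgebra k K) (res : S →ₐ[k] k), NPt S res → ∀ n : ℕ, Algebra.trdeg k K = (n : ℕ) →
    ∀ (f : Fin n → S), Proper S.val res f → 0 < Rho S.val res f

section aut

variable {S : Subalgebra k K} {res : S →ₐ[k] k}

theorem isUnit_iff_res (hS : NPt S res) (s : S) : IsUnit s ↔ res s ≠ 0 := by
  constructor
  · intro h h0
    have := h.map res
    rw [h0] at this
    exact not_isUnit_zero this
  · intro h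
    have h0 : (s : K) ≠ 0 := by
      intro h1
      apply h
      have : s = 0 := Subtype.ext h1
      rw [this, map_zero]
    exact IsUnit.of_mul_eq_one (⟨(s : K)⁻¹, hS.inv s h⟩ : S) (Subtype.ext (mul_inv_cancel₀ h0))

/-- The restriction of `τ` to `S`. -/
def resEquiv (τ : K ≃+* K) (h : ∀ x, x ∈ S ↔ τ x ∈ S) : S ≃+* S where
  toFun s := ⟨τ s, (h s).1 s.2⟩
  invFun s := ⟨τ.symm s, (h _).2 (by rw [τ.apply_symm_apply]; exact s.2)⟩
  left_inv s := Subtype.ext (τ.symm_apply_apply s)
  right_inv s := Subtype.ext (τ.apply_symm_apply s)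
  map_mul' s t := Subtype.ext (map_mul τ (s : K) t)
  map_add' s t := Subtype.ext (map_add τ (s : K) t)

/-- `τ⁻¹ d τ`. -/
noncomputable def conj (τ : K ≃+* K) (σ : k ≃+* k)
    (h : ∀ c : k, τ (algebraMap k K c) = algebraMap k K (σ c)) (d : Derivation k K K) :
    Derivation k K K :=
  Derivation.mk'
    { toFun := fun x => τ.symm (d (τ x))
      map_add' := fun x y => by rw [map_add, map_add, map_add]
      map_smul' := fun c x => by
        rw [Algebra.smul_def, map_mul, h, ← Algebra.smul_def, Derivation.map_smul,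
          Algebra.smul_def, map_mul, RingHom.id_apply, Algebra.smul_def, ← h,
          τ.symm_apply_apply] }
    (fun x y => by
      change τ.symm (d (τ (x * y))) = x • τ.symm (d (τ y)) + y • τ.symm (d (τ x))
      rw [map_mul, Derivation.leibniz, map_add, smul_eq_mul, smul_eq_mul, map_mul, map_mul,
        τ.symm_apply_apply, τ.symm_apply_apply, smul_eq_mul, smul_eq_mul])

theorem conj_apply (τ : K ≃+* K) (σ : k ≃+* k)
    (h : ∀ c : k, τ (algebraMap k K c) = algebraMap k K (σ c)) (d : Derivation k K K) (x : K) :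
    conj τ σ h d x = τ.symm (d (τ x)) := rfl

/-- The dual derivations commute with the automorphisms which fix `f`. -/
theorem dual_conj {n : ℕ} {f : Fin n → K} {D : Fin n → Derivation k K K} (hD : Dual f D)
    (τ : K ≃+* K) (σ : k ≃+* k) (h : ∀ c : k, τ (algebraMap k K c) = algebraMap k K (σ c))
    (hf : ∀ j, τ (f j) = f j) (i : Fin n) (x : K) : τ.symm (D i (τ x)) = D i x := by
  rw [← conj_apply τ σ h (D i) x, hD.span (conj τ σ h (D i)) x]
  rw [Finset.sum_eq_single i]
  · rw [conj_apply, hf, hD.dual, if_pos rfl, map_one, one_mul]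
  · intro j _ hj
    rw [conj_apply, hf, hD.dual, if_neg (Ne.symm hj), map_zero, zero_mul]
  · intro h0
    exact absurd (Finset.mem_univ i) h0

end aut

section bad

variable {S : Subalgebra k K} {res : S →ₐ[k] k} {m : ℕ}

/-- The function `G' + ε ∑ a_j f_i ^ (j + 1)`. -/
def gfn (G' ε x : S) {N : ℕ} (a : Fin N → k) : S :=
  G' + ε * ∑ j : Fin N, algebraMap k S (a j) * x ^ (j.1 + 1)

/-- The condition on the order of `d G` on the place `v`. -/
def BadAt (d : Derivation k K K) (G' ε x : S) {N : ℕ} (v : Valuation S ℤᵐ⁰) (a : Fin N → k) :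
    Prop :=
  ∀ b e : S, v b ≠ 0 → (b : K) * d (gfn G' ε x a : S) = e → v e ≤ v b * v x ^ N

/-- The bad vectors. -/
def Bad (res : S →ₐ[k] k) {n : ℕ} (w : Fin n → S) (d : Derivation k K K) (G' ε x : S) {N : ℕ}
    (a : Fin N → k) : Prop :=
  ∃ v : Valuation S ℤᵐ⁰, IsCv res v ∧ (∀ l, v (w l) = 0) ∧ BadAt d G' ε x v a

theorem BadAt.congr {d : Derivation k K K} {G' ε x : S} {N : ℕ} {v v' : Valuation S ℤᵐ⁰}
    (h : v.IsEquiv v') {a : Fin N → k} (hv : BadAt d G' ε x v a) : BadAt d G' ε x v' a := by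
  intro b e hb he
  have h1 := hv b e (fun h0 => hb ((h.eq_zero).1 h0)) he
  rw [← map_pow, ← map_mul] at h1 ⊢
  exact (h _ _).1 h1

theorem gfn_conj {τ : K ≃+* K} {σ : k ≃+* k}
    (h : ∀ c : k, τ (algebraMap k K c) = algebraMap k K (σ c)) {G' ε x : S}
    (hG : τ (G' : K) = G') (hε : τ (ε : K) = ε) (hx : τ (x : K) = x) {N : ℕ} (a : Fin N → k) :
    ((gfn G' ε x (fun j => σ (a j)) : S) : K) = τ (gfn G' ε x a : S) := by
  have e : ∀ b : Fin N → k, ((gfn G' ε x b : S) : K) =
      (G' : K) + (ε : K) * ∑ j : Fin N, algebraMap k K (b j) * (x : K) ^ (j.1 + 1) := by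
    intro b
    unfold gfn
    push_cast
    rfl
  rw [e, e, map_add, map_mul, map_sum, hG, hε]
  congr 2
  refine Finset.sum_congr rfl fun j _ => ?_
  rw [map_mul, map_pow, hx, h]

/-- The bad vectors are stable. -/
theorem Bad.conj (hS : NPt S res) {n : ℕ} {f : Fin n → S} {D : Fin n → Derivation k K K}
    (hD : Dual (fun j => (f j : K)) D) {q : ℕ} {w : Fin q → S} {i : Fin n} {G' ε : S} {N : ℕ}
    {a : Fin N → k} {g : (K ≃+* K) × (k ≃+* k)}
    (hg : g ∈ Auts S (insert (G' : K) (insert (ε : K) (Set.range fun j => (f j : K)))) ∅)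
    (hw : ∀ l, ∃ j, w l = f j) (hB : Bad res w (D i) G' ε (f i) a) :
    Bad res w (D i) G' ε (f i) (fun j => g.2 (a j)) := by
  obtain ⟨v, hv, hv0, hva⟩ := hB
  obtain ⟨h1, h2, h3, -⟩ := hg
  have hG : g.1 (G' : K) = G' := h3 _ (Set.mem_insert _ _)
  have hε : g.1 (ε : K) = ε := h3 _ (Set.mem_insert_of_mem _ (Set.mem_insert _ _))
  have hf : ∀ j, g.1 (f j : K) = f j := fun j =>
    h3 _ (Set.mem_insert_of_mem _ (Set.mem_insert_of_mem _ ⟨j, rfl⟩))
  let τ : S ≃+* S := resEquiv g.1 h2
  have hτ : ∀ s : S, ((τ.symm s : S) : K) = g.1.symm s := fun s => rfl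
  have hτf : ∀ j, τ.symm (f j) = f j := by
    intro j
    refine Subtype.ext ?_
    rw [hτ, RingEquiv.symm_apply_eq]
    exact (hf j).symm
  have hres : ∀ s : S, res (τ.symm s) = 0 ↔ res s = 0 := by
    intro s
    rw [← not_iff_not, ← ne_eq, ← ne_eq, ← isUnit_iff_res hS, ← isUnit_iff_res hS]
    exact MulEquiv.isUnit_map τ.symm
  let v' : Valuation S ℤᵐ⁰ := v.comap (τ.symm : S →+* S)
  have hv' : ∀ s, v' s = v (τ.symm s) := fun s => rfl
  refine ⟨v', ⟨fun s => hv.le _, fun s hs => hv.lt _ ((hres s).2 hs),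
    fun s hs => hv.one _ fun h => hs ((hres s).1 h), ?_⟩, ?_, ?_⟩
  · obtain ⟨s, hs, hs0⟩ := hv.ne
    refine ⟨τ s, ?_, ?_⟩
    · rw [← hres, τ.symm_apply_apply]
      exact hs
    · rw [hv', τ.symm_apply_apply]
      exact hs0
  · intro l
    obtain ⟨j, hj⟩ := hw l
    rw [hv', hj, hτf, ← hj]
    exact hv0 l
  · intro b e hb he
    rw [hv'] at hb
    have h4 := hva (τ.symm b) (τ.symm e) hb ?_
    · rw [hv', hv', hv', hτf]
      exact h4
    · rw [gfn_conj h1 hG hε (hf i)] at he
      have h5 := congrArg g.1.symm he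
      rw [map_mul, dual_conj hD g.1 g.2 h1 hf i] at h5
      rw [hτ, hτ]
      exact h5

end bad

section main

variable {S : Subalgebra k K} {res : S →ₐ[k] k} {m : ℕ}

theorem cons_eq {α : Type*} (f : Fin (m + 1) → α) (i : Fin (m + 1)) :
    (Fin.cons (f i) (f ∘ i.succAbove) : Fin (m + 1) → α) = f ∘ i.cycleRange.symm := by
  funext l
  refine Fin.cases ?_ (fun j => ?_) l
  · rw [Fin.cons_zero, Function.comp_apply, Fin.cycleRange_symm_zero]
  · rw [Fin.cons_succ, Function.comp_apply, Function.comp_apply, Fin.cycleRange_symm_succ]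

theorem proper_cons {f : Fin (m + 1) → S} (hf : Proper S.val res f) (i : Fin (m + 1)) :
    Proper S.val res (Fin.cons (f i) (f ∘ i.succAbove) : Fin (m + 1) → S) := by
  rw [cons_eq]
  refine ⟨fun j => hf.1 _, fun Q hQ hk hQf => hf.2 Q hQ hk fun j => ?_⟩
  have := hQf (i.cycleRange j)
  rwa [Function.comp_apply, Equiv.symm_apply_apply] at this

/-- The set `{a | Bad a}` is finite. -/
theorem bad_finite {J : Type} [Fintype J] {μ : J → ℕ} {v : J → Valuation S ℤᵐ⁰} {q : ℕ}
    {w : Fin q → S} (C : Cv S res w μ v) {d : Derivation k K K} {G' ε x : S} {N : ℕ}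
    (h1 : ∀ j, ∀ c c' : Fin N → k, BadAt d G' ε x (v j) c → BadAt d G' ε x (v j) c' → c = c') :
    {a : Fin N → k | Bad res w d G' ε x a}.Finite := by
  refine Set.Finite.subset (Set.finite_iUnion (fun j : J =>
    Set.Subsingleton.finite (s := {a : Fin N → k | BadAt d G' ε x (v j) a})
      fun c hc c' hc' => h1 j c c' hc hc')) ?_
  rintro a ⟨v', hv', h0, ha⟩
  obtain ⟨j, hj⟩ := C.all v' hv' h0
  exact Set.mem_iUnion.2 ⟨j, ha.congr hj⟩

/-- One denominator for all places. -/
theorem exists_common {J : Type} [Fintype J] {v : J → Valuation S ℤᵐ⁰} {z : K} {x : S} {N : ℕ}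
    (h : ∀ j, ∃ b e : S, v j b ≠ 0 ∧ (b : K) * z = e ∧ v j b * v j x ^ N < v j e) :
    ∃ b e : S, (b : K) * z = e ∧ ∀ j, v j b ≠ 0 ∧ v j b * v j x ^ N < v j e := by
  classical
  let I : Ideal S :=
    { carrier := {b | ∃ e : S, (b : K) * z = e}
      add_mem' := by
        rintro b b' ⟨e, he⟩ ⟨e', he'⟩
        exact ⟨e + e', by push_cast; rw [add_mul, he, he']⟩
      zero_mem' := ⟨0, by push_cast; rw [zero_mul]⟩
      smul_mem' := by
        rintro s b ⟨e, he⟩
        exact ⟨s * e, by rw [smul_eq_mul]; push_cast; rw [mul_assoc, he]⟩ }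
  have hI : ¬ ((I : Set S) ⊆ ⋃ j ∈ ((Finset.univ : Finset J) : Set J), ((v j).supp : Set S)) := by
    by_cases hJ : Nonempty J
    · obtain ⟨j0⟩ := hJ
      rw [Ideal.subset_union_prime j0 j0 (fun j _ _ _ => inferInstance)]
      rintro ⟨j, -, hj⟩
      obtain ⟨b, e, hb, he, -⟩ := h j
      exact hb ((Valuation.mem_supp_iff _ _).1 (hj (⟨e, he⟩ : b ∈ I)))
    · intro hsub
      have h0 : (0 : S) ∈ (I : Set S) := I.zero_mem
      obtain ⟨j, -⟩ := Set.mem_iUnion.1 (hsub h0)
      exact hJ ⟨j⟩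
  rw [Set.not_subset] at hI
  obtain ⟨b, ⟨e, he⟩, hb⟩ := hI
  refine ⟨b, e, he, fun j => ?_⟩
  have hbj : v j b ≠ 0 := by
    intro h0
    refine hb (Set.mem_iUnion₂.2 ⟨j, by simp, ?_⟩)
    exact (Valuation.mem_supp_iff _ _).2 h0
  refine ⟨hbj, ?_⟩
  obtain ⟨b', e', hb', he', hlt⟩ := h j
  have h1 : b * e' = b' * e := by
    refine Subtype.ext ?_
    push_cast
    rw [← he, ← he']
    ring
  have h2 : v j b * v j e' = v j b' * v j e := by rw [← map_mul, h1, map_mul]
  have hb0 : 0 < v j b := zero_lt_iff.2 hbj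
  have hb'0 : 0 < v j b' := zero_lt_iff.2 hb'
  have h3 : v j b * (v j b' * v j x ^ N) < v j b * v j e' := (mul_lt_mul_iff_right₀ hb0).2 hlt
  rw [h2, mul_left_comm] at h3
  exact (mul_lt_mul_iff_right₀ hb'0).1 h3

end main

end Pool.Agent.TGJ.H12

namespace Pool.Agent.TGJ

open Pool.Agent.TGh4

open scoped WithZero

/-- **Row R10: `Lem3`.** -/
theorem lem3_of {k K : Type _} [Field k] [Field K] [Algebra k K] (f1 : F1 k K) (f2 : F2 k K)
    (pm : Perm k) (dp : DerPl k K) (ex : ExDual k K) (df : H12.DivFin k K)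
    (rp : H12.RhoPos k K) : Lem3 k K := by
  classical
  intro hk p hp hchar S res hS m hm f hf hρ D hD i hPR N _ hNp c G' ε G hε hG hmov
  set w := f ∘ i.succAbove with hw
  have hpc := H12.proper_cons hf i
  have hres : res (f i) = 0 := hf.1 i
  obtain ⟨J, iJ, μ, v, C⟩ := H12.exists_Cv f2 hS hm ⟨f i, hpc⟩
  have hx : ∀ j, v j (f i) ≠ 0 := (C.prop _ hres).1 hpc
  have hrho : Rho S.val res f = ∑ j, μ j * ordZ (v j (f i)) := by
    rw [← C.rho _ hres hx, H12.cons_eq]
    exact (pm S K S.val res (m + 1) f _).symm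
  have hGdef : G = H12.gfn G' ε (f i) c := hG
  -- `c` is not bad
  have hfin : {a : Fin N → k | H12.Bad res w (D i) G' ε (f i) a}.Finite := by
    refine H12.bad_finite C fun j a a' ha ha' => ?_
    refine dp hk p hp hchar S res hS m hm f hf hρ D hD i hPR (v j) (C.cv j) (C.zero j) N hNp
      G' ε hε a a' ?_
    rintro a'' (rfl | rfl)
    · exact ha
    · exact ha'
  have hc : ¬ H12.Bad res w (D i) G' ε (f i) c := by
    intro hc
    refine hmov (hfin.subset ?_)
    rintro b ⟨g, hg, rfl⟩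
    exact H12.Bad.conj hS hD hg (fun l => ⟨_, rfl⟩) hc
  have hgood : ∀ j, ∃ b e : S, v j b ≠ 0 ∧ (b : K) * D i (G : K) = e ∧
      v j b * v j (f i) ^ N < v j e := by
    intro j
    by_contra hcon
    refine hc ⟨v j, C.cv j, C.zero j, fun b e hb he => ?_⟩
    rw [← hGdef] at he
    by_contra hlt
    exact hcon ⟨b, e, hb, he, not_le.1 hlt⟩
  obtain ⟨b, e, hbe, hbe'⟩ := H12.exists_common hgood
  have hvb : ∀ j, v j b ≠ 0 := fun j => (hbe' j).1
  have hve : ∀ j, v j e ≠ 0 := fun j => ((zero_le).trans_lt (hbe' j).2).ne'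
  -- `D i G ≠ 0`
  obtain ⟨j0⟩ : Nonempty J := by
    by_contra hJ
    rw [not_nonempty_iff] at hJ
    have := rp hk S res hS (m + 1) hm f hf
    rw [hrho] at this
    simp at this
  have he0 : (e : K) ≠ 0 := by
    intro h
    have : e = 0 := Subtype.ext h
    exact hve j0 (by rw [this, map_zero])
  have hb0 : (b : K) ≠ 0 := by
    intro h
    have : b = 0 := Subtype.ext h
    exact hvb j0 (by rw [this, map_zero])
  have hD0 : D i (G : K) ≠ 0 := by
    intro h
    rw [h, mul_zero] at hbe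
    exact he0 hbe.symm
  have hord : ∀ V : ValuationSubring K, ordV V (D i (G : K)) = ordV V (e : K) - ordV V (b : K) := by
    intro V
    have := ordV_mul V hb0 hD0
    rw [hbe] at this
    linarith
  obtain ⟨-, hHas, hRfin⟩ := ex hk p hp hchar S res hS (m + 1) hm f hf hρ
  have hram : ∀ V, IsDiv S V → (ramV V (Function.update f i G) : ℤ) =
      ramV V f + (ordV V (e : K) - ordV V (b : K)) := by
    intro V hV
    have h1 := rram_update (H12.IsOrd_ordV hV.disc) (f := fun j => (f j : K))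
      (fun j => hV.le _ (f j).2) (hHas V hV) hD i (G := (G : K)) (hV.le _ G.2) hD0
    rw [hord] at h1
    have h2 : (fun j => ((Function.update f i G j : S) : K)) =
        Function.update (fun j => (f j : K)) i (G : K) := by
      funext l
      by_cases hl : l = i
      · subst hl
        rw [Function.update_self, Function.update_self]
      · rw [Function.update_of_ne hl, Function.update_of_ne hl]
    unfold ramV
    rw [h2]
    exact h1
  refine ⟨hD0, ?_, ?_⟩
  · intro V hV hne
    by_cases h0 : ramV V f = 0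
    · have h1 := hram V hV
      rw [h0] at h1
      have h2 : (0 : ℤ) < ramV V (Function.update f i G) := by
        have := Nat.pos_of_ne_zero hne
        exact_mod_cast this
      have h3 : 0 ≤ ordV V (b : K) := ordV_nonneg_of_mem (hV.le _ b.2)
      have h4 : e ∈ cen S V := by
        by_contra h4
        rw [H12.ordV_eq_zero_of_notMem hV h4] at h1
        push_cast at h1
        omega
      have h5 : res e = 0 := by
        by_contra h5
        exact H12.notMem_cen_of_res hS hV h5 h4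
      exact (f1 hk S res hS m hm e w ((C.prop e h5).2 hve)).1 V hV h4
    · exact hPR V hV h0
  · -- the intersection numbers
    have e1 := H12.I_eq f1 df hS hm C he0 hve
    have e2 := H12.I_eq f1 df hS hm C hb0 hvb
    have hfe := df S res hS e he0
    have hfb := df S res hS b hb0
    set T := hRfin.toFinset ∪ (hfe.toFinset ∪ hfb.toFinset) with hTdef
    have hT : ∀ V ∈ T, IsDiv S V := by
      intro V hV
      rcases Finset.mem_union.1 hV with h | h
      · exact (hRfin.mem_toFinset.1 h).1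
      rcases Finset.mem_union.1 h with h | h
      · exact (hfe.mem_toFinset.1 h).1
      · exact (hfb.mem_toFinset.1 h).1
    have hNe : ∀ V, IsDiv S V → V ∉ T → ordV V (e : K) = 0 := fun V hV hVT =>
      H12.ordV_eq_zero_of_notMem hV fun h => hVT (Finset.mem_union_right _
        (Finset.mem_union_left _ (hfe.mem_toFinset.2 ⟨hV, h⟩)))
    have hNb : ∀ V, IsDiv S V → V ∉ T → ordV V (b : K) = 0 := fun V hV hVT =>
      H12.ordV_eq_zero_of_notMem hV fun h => hVT (Finset.mem_union_right _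
        (Finset.mem_union_right _ (hfb.mem_toFinset.2 ⟨hV, h⟩)))
    have hNf : ∀ V, IsDiv S V → V ∉ T → ramV V f = 0 := fun V hV hVT => by
      by_contra h
      exact hVT (Finset.mem_union_left _ (hRfin.mem_toFinset.2 ⟨hV, h⟩))
    have hNf' : ∀ V, IsDiv S V → V ∉ T → ramV V (Function.update f i G) = 0 :=
      fun V hV hVT => by
        have := hram V hV
        rw [hNf V hV hVT, hNe V hV hVT, hNb V hV hVT] at this
        push_cast at this
        omega
    rw [H12.finsum_eq _ T hT fun V hV hVT => by rw [hNe V hV hVT, zero_mul]] at e1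
    rw [H12.finsum_eq _ T hT fun V hV hVT => by rw [hNb V hV hVT, zero_mul]] at e2
    unfold IR
    rw [H12.finsum_eq _ T hT fun V hV hVT => by rw [hNf' V hV hVT, zero_mul],
      H12.finsum_eq _ T hT fun V hV hVT => by rw [hNf V hV hVT, zero_mul]]
    have key : ((∑ V ∈ T, ramV V (Function.update f i G) * RhoV S V res w : ℕ) : ℤ) =
        ((∑ V ∈ T, ramV V f * RhoV S V res w : ℕ) : ℤ) +
          (∑ j, (μ j : ℤ) * ordZ (v j e) - ∑ j, (μ j : ℤ) * ordZ (v j b)) := by
      rw [← e1, ← e2, ← Finset.sum_sub_distrib]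
      push_cast
      rw [← Finset.sum_add_distrib]
      refine Finset.sum_congr rfl fun V hV => ?_
      rw [hram V (hT V hV)]
      ring
    have hle : ∀ j, (ordZ (v j e) : ℤ) ≤ ordZ (v j b) + N * ordZ (v j (f i)) := by
      intro j
      have hb1 : v j b ≤ 1 := (C.cv j).le _
      have hx1 : v j (f i) ≤ 1 := (C.cv j).le _
      have h1 := H12.ordZ_le (mul_ne_zero (hvb j) (pow_ne_zero N (hx j))) (hve j)
        (mul_le_one' hb1 (pow_le_one' hx1 N)) ((C.cv j).le _) (hbe' j).2.le
      have h2 := H12.ordZ_mul (hvb j) (pow_ne_zero N (hx j)) hb1 (pow_le_one' hx1 N)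
      rw [H12.ordZ_pow (hx j) hx1] at h2
      rw [← h2]
      exact_mod_cast h1
    have hsum : ∑ j, (μ j : ℤ) * ordZ (v j e) ≤
        ∑ j, (μ j : ℤ) * ordZ (v j b) + N * (Rho S.val res f : ℤ) := by
      rw [hrho]
      push_cast
      rw [Finset.mul_sum, ← Finset.sum_add_distrib]
      refine Finset.sum_le_sum fun j _ => ?_
      have := mul_le_mul_of_nonneg_left (hle j) (Int.natCast_nonneg (μ j))
      calc (μ j : ℤ) * ordZ (v j e) ≤ (μ j : ℤ) * (ordZ (v j b) + N * ordZ (v j (f i))) := this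
        _ = _ := by ring
    have : ((∑ V ∈ T, ramV V (Function.update f i G) * RhoV S V res w : ℕ) : ℤ) ≤
        ((∑ V ∈ T, ramV V f * RhoV S V res w + N * Rho S.val res f : ℕ) : ℤ) := by
      rw [key]
      push_cast
      push_cast at hsum
      linarith
    exact_mod_cast this

end Pool.Agent.TGJ
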