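import Mathlib

/-!
# Extension of valuations to finite extensions, with values in the same ordered group

If `F' / F` is finite and `v` is a valuation of `F`, there are a valuation `v'` of `F'` with values
in the same ordered group and `N > 0` with `v' x = v x ^ N` for `x` in `F`.
-/

set_option autoImplicit false

namespace Pool.Agent.TGJ.H12

open Polynomial

section field

variable {Γ₀ : Type*} [LinearOrderedCommGroupWithZero Γ₀] {F F' : Type*} [Field F] [Field F']
  [Algebra F F'] (v : Valuation F Γ₀)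

/-- A valuation subring of `F'` over the valuation ring of `v`. -/
theorem exists_subring : ∃ B : ValuationSubring F', ∀ x : F, algebraMap F F' x ∈ B ↔ v x ≤ 1 := by
  obtain ⟨B, h, hloc⟩ := IsLocalRing.exists_factor_valuationRing
    ((algebraMap F F').comp v.valuationSubring.subtype)
  refine ⟨B, fun x => ⟨fun hx => ?_, fun hx => h ⟨x, hx⟩⟩⟩
  by_contra hcon
  rw [not_le] at hcon
  have hx0 : x ≠ 0 := by
    rintro rfl
    rw [map_zero] at hcon
    exact absurd hcon (not_lt.2 zero_le_one)
  have h1 : v x⁻¹ < 1 := by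
    rw [map_inv₀]
    exact inv_lt_one_of_one_lt₀ hcon
  have h2 : IsUnit ((((algebraMap F F').comp v.valuationSubring.subtype).codRestrict
      B.toSubring h) ⟨x⁻¹, h1.le⟩) := by
    rw [isUnit_iff_exists_inv]
    refine ⟨⟨algebraMap F F' x, hx⟩, Subtype.ext ?_⟩
    change algebraMap F F' x⁻¹ * algebraMap F F' x = 1
    rw [← map_mul, inv_mul_cancel₀ hx0, map_one]
  have h3 := hloc.map_nonunit _ h2
  rw [isUnit_iff_exists_inv] at h3
  obtain ⟨⟨y, hy⟩, h4⟩ := h3
  have h5 : x⁻¹ * y = 1 := congrArg (fun t : v.valuationSubring => (t : F)) h4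
  have h6 : y = x := by
    have := congrArg (fun t => x * t) h5
    rwa [← mul_assoc, mul_inv_cancel₀ hx0, one_mul, mul_one] at this
  rw [h6] at hy
  exact absurd hcon (not_lt.2 hy)

variable {v} {B : ValuationSubring F'} (hB : ∀ x : F, algebraMap F F' x ∈ B ↔ v x ≤ 1)

include hB in
theorem val_le_iff' (x y : F) :
    B.valuation (algebraMap F F' x) ≤ B.valuation (algebraMap F F' y) ↔ v x ≤ v y := by
  by_cases hy : y = 0
  · subst hy
    rw [map_zero, map_zero, map_zero, le_zero_iff, le_zero_iff, map_eq_zero, map_eq_zero,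
      map_eq_zero]
  · have hy' : algebraMap F F' y ≠ 0 := (_root_.map_ne_zero _).2 hy
    have h1 : 0 < v y := zero_lt_iff.2 ((Valuation.ne_zero_iff _).2 hy)
    have h2 : 0 < B.valuation (algebraMap F F' y) :=
      zero_lt_iff.2 ((Valuation.ne_zero_iff _).2 hy')
    have h3 := hB (x / y)
    rw [map_div₀, map_div₀, ← B.valuation_le_one_iff, map_div₀, div_le_one₀ h2,
      div_le_one₀ h1] at h3
    exact h3

include hB in
theorem val_eq_iff' (x y : F) :
    B.valuation (algebraMap F F' x) = B.valuation (algebraMap F F' y) ↔ v x = v y := by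
  rw [le_antisymm_iff, le_antisymm_iff, val_le_iff' hB, val_le_iff' hB]

/-- In a vanishing sum two terms have the same value. -/
theorem exists_two {ι : Type*} [DecidableEq ι] (B : ValuationSubring F') (s : Finset ι)
    (t : ι → F') (h0 : ∑ i ∈ s, t i = 0) {i₁ : ι} (hi₁ : i₁ ∈ s) (ht : t i₁ ≠ 0) :
    ∃ i ∈ s, ∃ j ∈ s, i ≠ j ∧ t i ≠ 0 ∧ B.valuation (t i) = B.valuation (t j) := by
  obtain ⟨i, hi, hmax⟩ := s.exists_max_image (fun i => B.valuation (t i)) ⟨i₁, hi₁⟩
  have hti : t i ≠ 0 := by
    intro h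
    have h1 := hmax i₁ hi₁
    rw [h, map_zero, le_zero_iff, Valuation.zero_iff] at h1
    exact ht h1
  refine ⟨i, hi, ?_⟩
  by_contra hcon
  push Not at hcon
  have h1 : B.valuation (∑ j ∈ s.erase i, t j) < B.valuation (t i) := by
    refine Valuation.map_sum_lt _ ((Valuation.ne_zero_iff _).2 hti) fun j hj => ?_
    rw [Finset.mem_erase] at hj
    exact lt_of_le_of_ne (hmax j hj.2) fun h => hcon j hj.2 hj.1.symm hti h.symm
  have h2 : ∑ j ∈ s.erase i, t j = - t i := by
    have := Finset.add_sum_erase s t hi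
    rw [h0] at this
    exact (neg_eq_of_add_eq_zero_right this).symm
  rw [h2, Valuation.map_neg] at h1
  exact lt_irrefl _ h1

/-- A power of exponent at most the degree has its value in `F`. -/
theorem exists_pow_val (B : ValuationSubring F') {x : F'} (hx : x ≠ 0) {P : F[X]} (hP : P ≠ 0)
    (hPx : aeval x P = 0) : ∃ j, 0 < j ∧ j ≤ P.natDegree ∧ ∃ y : F, y ≠ 0 ∧
      B.valuation (x ^ j) = B.valuation (algebraMap F F' y) := by
  classical
  have h0 : ∑ i ∈ Finset.range (P.natDegree + 1), algebraMap F F' (P.coeff i) * x ^ i = 0 := by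
    rw [aeval_eq_sum_range] at hPx
    simpa only [Algebra.smul_def] using hPx
  obtain ⟨i, hi, j, hj, hij, hti, hval⟩ := exists_two B _ _ h0
    (i₁ := P.natDegree) (Finset.mem_range.2 (Nat.lt_succ_self _))
    (mul_ne_zero ((_root_.map_ne_zero _).2 (leadingCoeff_ne_zero.2 hP)) (pow_ne_zero _ hx))
  have htj : algebraMap F F' (P.coeff j) * x ^ j ≠ 0 := by
    intro h
    rw [h, map_zero, Valuation.zero_iff] at hval
    exact hti hval
  have ha : P.coeff i ≠ 0 := fun h => hti (by rw [h, map_zero, zero_mul])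
  have hb : P.coeff j ≠ 0 := fun h => htj (by rw [h, map_zero, zero_mul])
  have hi' : i ≤ P.natDegree := Nat.lt_succ_iff.1 (Finset.mem_range.1 hi)
  have hj' : j ≤ P.natDegree := Nat.lt_succ_iff.1 (Finset.mem_range.1 hj)
  have hxv : B.valuation x ≠ 0 := (Valuation.ne_zero_iff _).2 hx
  have hav : B.valuation (algebraMap F F' (P.coeff i)) ≠ 0 :=
    (Valuation.ne_zero_iff _).2 ((_root_.map_ne_zero _).2 ha)
  have hbv : B.valuation (algebraMap F F' (P.coeff j)) ≠ 0 :=
    (Valuation.ne_zero_iff _).2 ((_root_.map_ne_zero _).2 hb)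
  rw [map_mul, map_mul, map_pow, map_pow] at hval
  rcases lt_or_gt_of_ne hij with h | h
  · refine ⟨j - i, by omega, by omega, P.coeff i / P.coeff j, div_ne_zero ha hb, ?_⟩
    rw [map_div₀, map_div₀, map_pow, eq_div_iff hbv]
    obtain ⟨r, rfl⟩ := Nat.exists_eq_add_of_lt h
    have e1 : i + r + 1 - i = r + 1 := by omega
    rw [e1]
    refine mul_right_cancel₀ (pow_ne_zero i hxv) ?_
    rw [hval, mul_comm (B.valuation x ^ (r + 1)), mul_assoc, ← pow_add]
    congr 2
    omega
  · refine ⟨i - j, by omega, by omega, P.coeff j / P.coeff i, div_ne_zero hb ha, ?_⟩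
    rw [map_div₀, map_div₀, map_pow, eq_div_iff hav]
    obtain ⟨r, rfl⟩ := Nat.exists_eq_add_of_lt h
    have e1 : j + r + 1 - j = r + 1 := by omega
    rw [e1]
    refine mul_right_cancel₀ (pow_ne_zero j hxv) ?_
    rw [← hval, mul_comm (B.valuation x ^ (r + 1)), mul_assoc, ← pow_add]
    congr 2
    omega

/-- **Extension of a valuation** to an extension of bounded degree. -/
theorem ext_bdd (v : Valuation F Γ₀) {d : ℕ}
    (hd : ∀ x : F', ∃ P : F[X], P ≠ 0 ∧ P.natDegree ≤ d ∧ aeval x P = 0) :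
    ∃ (v' : Valuation F' Γ₀) (N : ℕ), 0 < N ∧ ∀ x, v' (algebraMap F F' x) = v x ^ N := by
  classical
  obtain ⟨B, hB⟩ := exists_subring (F' := F') v
  have hN : 0 < d.factorial := Nat.factorial_pos d
  have key : ∀ x : F', ∃ y : F, B.valuation (x ^ d.factorial) = B.valuation (algebraMap F F' y) := by
    intro x
    by_cases hx : x = 0
    · refine ⟨0, ?_⟩
      rw [hx, zero_pow hN.ne', map_zero, map_zero, map_zero]
    · obtain ⟨P, hP, hPd, hPx⟩ := hd x
      obtain ⟨j, hj0, hj, y, hy0, hy⟩ := exists_pow_val B hx hP hPx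
      obtain ⟨c, hc⟩ : j ∣ d.factorial := Nat.dvd_factorial hj0 (hj.trans hPd)
      refine ⟨y ^ c, ?_⟩
      rw [hc, pow_mul, map_pow, hy, map_pow, map_pow]
  choose Y hY using key
  have hle : ∀ x x' : F', B.valuation x ≤ B.valuation x' → v (Y x) ≤ v (Y x') := by
    intro x x' h
    rw [← val_le_iff' hB, ← hY, ← hY, map_pow, map_pow]
    exact pow_le_pow_left₀ zero_le h _
  refine ⟨{ toFun := fun x => v (Y x), map_zero' := ?_, map_one' := ?_, map_mul' := ?_,
            map_add_le_max' := ?_ }, d.factorial, hN, ?_⟩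
  · have h := hY 0
    rw [zero_pow hN.ne', map_zero, eq_comm, Valuation.zero_iff, map_eq_zero] at h
    change v (Y 0) = 0
    rw [h, map_zero]
  · have h := hY 1
    have h1 : B.valuation (algebraMap F F' 1) = B.valuation (algebraMap F F' (Y 1)) := by
      rw [← h, one_pow, map_one]
    rw [val_eq_iff' hB, map_one] at h1
    exact h1.symm
  · intro x x'
    change v (Y (x * x')) = v (Y x) * v (Y x')
    rw [← map_mul, ← val_eq_iff' hB, ← hY, mul_pow, map_mul, hY, hY, map_mul, map_mul]
  · intro x x'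
    change v (Y (x + x')) ≤ max (v (Y x)) (v (Y x'))
    rcases le_max_iff.1 (B.valuation.map_add x x') with h | h
    · exact le_max_of_le_left (hle _ _ h)
    · exact le_max_of_le_right (hle _ _ h)
  · intro x
    change v (Y (algebraMap F F' x)) = v x ^ d.factorial
    rw [← map_pow, ← val_eq_iff' hB, ← hY, ← map_pow]

/-- **Extension of a valuation** to a finite extension. -/
theorem ext_field [FiniteDimensional F F'] (v : Valuation F Γ₀) :
    ∃ (v' : Valuation F' Γ₀) (N : ℕ), 0 < N ∧ ∀ x, v' (algebraMap F F' x) = v x ^ N :=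
  ext_bdd v (d := Module.finrank F F') fun x => ⟨minpoly F x,
    minpoly.ne_zero (Algebra.IsIntegral.isIntegral x), minpoly.natDegree_le x, minpoly.aeval F x⟩

end field

section dom

variable {Γ₀ : Type*} [LinearOrderedCommGroupWithZero Γ₀] {D D' : Type*} [CommRing D]
  [CommRing D'] [IsDomain D] [IsDomain D'] [Algebra D D'] [FaithfulSMul D D'] [Module.Finite D D']

attribute [local instance] FractionRing.liftAlgebra in
/-- Extension of a valuation with trivial support. -/
theorem ext_dom (v : Valuation D Γ₀) (hv : ∀ x, x ≠ 0 → v x ≠ 0) :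
    ∃ (v' : Valuation D' Γ₀) (N : ℕ), 0 < N ∧ ∀ x, v' (algebraMap D D' x) = v x ^ N := by
  have hfin : Module.Finite (FractionRing D) (FractionRing D') :=
    Module.Finite.of_isLocalization D D' (nonZeroDivisors D)
  have hS : nonZeroDivisors D ≤ v.supp.primeCompl := by
    intro x hx h0
    exact hv x (nonZeroDivisors.ne_zero hx) ((Valuation.mem_supp_iff _ _).1 h0)
  obtain ⟨v', N, hN, h⟩ := ext_field (F' := FractionRing D')
    (v.extendToLocalization hS (FractionRing D))
  refine ⟨v'.comap (algebraMap D' (FractionRing D')), N, hN, fun x => ?_⟩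
  rw [Valuation.comap_apply, ← IsScalarTower.algebraMap_apply D D' (FractionRing D'),
    IsScalarTower.algebraMap_apply D (FractionRing D) (FractionRing D'), h,
    Valuation.extendToLocalization_apply_map_apply]

end dom

section ring

variable {Γ₀ : Type*} [LinearOrderedCommGroupWithZero Γ₀] {B B' : Type*} [CommRing B]
  [CommRing B'] [Algebra B B'] [Module.Finite B B']

/-- **Extension of a valuation of a ring** to a finite ring extension. -/
theorem ext_ring (v : Valuation B Γ₀) (hv : ∀ b, algebraMap B B' b = 0 → v b = 0) :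
    ∃ (v' : Valuation B' Γ₀) (N : ℕ), 0 < N ∧ ∀ b, v' (algebraMap B B' b) = v b ^ N := by
  obtain ⟨Q, -, hQ, hQc⟩ := Ideal.exists_ideal_over_prime_of_isIntegral (S := B') v.supp ⊥ (by
    intro b hb
    rw [Valuation.mem_supp_iff]
    exact hv b ((Ideal.mem_bot).1 (Ideal.mem_comap.1 hb)))
  have hl : Q.LiesOver v.supp := ⟨hQc.symm⟩
  have hfs : FaithfulSMul (B ⧸ v.supp) (B' ⧸ Q) := by
    rw [faithfulSMul_iff_algebraMap_injective, injective_iff_map_eq_zero]
    intro x hx
    obtain ⟨b, rfl⟩ := Ideal.Quotient.mk_surjective x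
    rw [Ideal.Quotient.algebraMap_mk_of_liesOver, Ideal.Quotient.eq_zero_iff_mem] at hx
    rw [Ideal.Quotient.eq_zero_iff_mem, ← hQc]
    exact hx
  have hfin : Module.Finite (B ⧸ v.supp) (B' ⧸ Q) := inferInstance
  obtain ⟨v', N, hN, h⟩ := ext_dom (D' := B' ⧸ Q) (v.onQuot (le_refl v.supp)) (by
    intro x hx h0
    obtain ⟨b, rfl⟩ := Ideal.Quotient.mk_surjective x
    exact hx (Ideal.Quotient.eq_zero_iff_mem.2 ((Valuation.mem_supp_iff _ _).2 h0)))
  refine ⟨v'.comap (Ideal.Quotient.mk Q), N, hN, fun b => ?_⟩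
  have h1 := h (Ideal.Quotient.mk _ b)
  rw [Ideal.Quotient.algebraMap_mk_of_liesOver] at h1
  exact h1

/-- The extension is at most one on the whole ring if `v` is. -/
theorem ext_le_one {v : Valuation B Γ₀} {v' : Valuation B' Γ₀} {N : ℕ}
    (h : ∀ b, v' (algebraMap B B' b) = v b ^ N) (h1 : ∀ b, v b ≤ 1) (b' : B') : v' b' ≤ 1 := by
  obtain ⟨P, hP, hP0⟩ := Algebra.IsIntegral.isIntegral (R := B) b'
  by_contra hcon
  rw [not_le] at hcon
  have e1 : b' ^ P.natDegree = - ∑ i ∈ Finset.range P.natDegree,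
      algebraMap B B' (P.coeff i) * b' ^ i := by
    rw [eval₂_eq_sum_range, Finset.sum_range_succ, hP.coeff_natDegree, map_one, one_mul] at hP0
    exact (neg_eq_of_add_eq_zero_right hP0).symm
  have e2 : v' (b' ^ P.natDegree) < v' b' ^ P.natDegree := by
    rw [e1, Valuation.map_neg]
    refine Valuation.map_sum_lt _ (pow_ne_zero _ (zero_lt_one.trans hcon).ne') fun i hi => ?_
    rw [map_mul, map_pow, h]
    calc v (P.coeff i) ^ N * v' b' ^ i ≤ 1 * v' b' ^ i :=
          mul_le_mul_left (pow_le_one' (h1 _) N) _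
      _ < v' b' ^ P.natDegree := by
          rw [one_mul]
          exact pow_lt_pow_right₀ hcon (Finset.mem_range.1 hi)
  rw [map_pow] at e2
  exact lt_irrefl _ e2

end ring

end Pool.Agent.TGJ.H12
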