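import Pool.Agent.Lib.TGJ_h88.Prop
import Pool.Agent.Lib.TGJ_h12.Ext

/-!
# TANK G, block C, F2: every place of `S` comes from a place of a normal point over `S`

`φ : S → L` maps `S`, the local ring of a point `res` on a scheme of finite type, to a field `L`
which is the field of fractions of the image.
-/

set_option autoImplicit false

namespace Pool.Agent.TGJ

open Pool.Agent.TG (ncl le_ncl ncl_mono ncl_ncl)
open Pool.Agent.TGJ88
open scoped WithZero

universe u

section locx

variable {k L : Type u} [Field k] [Field L] [Algebra k L]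

/-- The local ring of a normal ring is normal. -/
theorem H12.ncl_locx {B : Subalgebra k L} (hB : ncl B ≤ B) (y : B →ₐ[k] k) (a : L)
    (ha : IsIntegral (locx B y) a) : a ∈ locx B y := by
  have htow : IsScalarTower B (locx B y) L := IsScalarTower.of_algebraMap_eq fun _ => rfl
  obtain ⟨c, hc⟩ := IsIntegral.exists_multiple_integral_of_isLocalization (R := B)
    (idl y).primeCompl (Rₘ := locx B y) a ha
  have hcy : y (c : B) ≠ 0 := fun h => c.2 h
  have h1 : ((c : B) : L) * a ∈ B := hB hc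
  exact ⟨⟨_, h1⟩, c, hcy, mul_comm _ _⟩

theorem H12.npt_locx {B : Subalgebra k L} (hB : ncl B ≤ B) (hfg : B.FG) (y : B →ₐ[k] k)
    (hfrac : ∀ l : L, ∃ a b : B, (b : L) ≠ 0 ∧ l * b = a) : NPt (locx B y) (evx B y) where
  inv := fun _ ha => inv_mem_of_evx ha
  ic := fun a ha => H12.ncl_locx hB y a ha
  fg := by
    refine ⟨B, hfg, le_locx B y, fun s => ?_⟩
    obtain ⟨b, c, hc, h⟩ := s.2
    refine ⟨(y c)⁻¹ • b, (y c)⁻¹ • c, ?_, ?_⟩
    · have h1 : evx B y (Subalgebra.inclusion (le_locx B y) ((y c)⁻¹ • c)) = y ((y c)⁻¹ • c) :=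
        evx_mk _ _
      rw [h1, map_smul, smul_eq_mul, inv_mul_cancel₀ hc]
    · have h1 : (((y c)⁻¹ • c : B) : L) = algebraMap k L (y c)⁻¹ * c := Algebra.smul_def _ _
      have h2 : (((y c)⁻¹ • b : B) : L) = algebraMap k L (y c)⁻¹ * b := Algebra.smul_def _ _
      rw [h1, h2, ← h]
      ring
  frac := by
    intro l
    obtain ⟨a, b, hb, h⟩ := hfrac l
    exact ⟨⟨a, le_locx B y a.2⟩, ⟨b, le_locx B y b.2⟩, hb, h⟩

end locx

section EPt

variable {k S L : Type u} [Field k] [CommRing S] [Algebra k S] [Field L] [Algebra k L]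

/-- `S` is, at the point `res`, of finite type; `L` is the field of fractions of its image. -/
structure EPt (φ : S →ₐ[k] L) (res : S →ₐ[k] k) : Prop where
  fg : ∃ A : Subalgebra k S, A.FG ∧ ∀ s : S, ∃ a b : A, res b = 1 ∧ s * b = a
  frac : FracOf φ
  ker : ∀ a, φ a = 0 → res a = 0

namespace H12

variable {φ : S →ₐ[k] L} {res : S →ₐ[k] k}

theorem frac_A (h : EPt φ res) {A : Subalgebra k S}
    (hA : ∀ s : S, ∃ a b : A, res b = 1 ∧ s * b = a) (l : L) :
    ∃ a b : A, φ b ≠ 0 ∧ l * φ b = φ a := by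
  obtain ⟨a, b, hb, hl⟩ := h.frac l
  obtain ⟨a₁, b₁, hb₁, e₁⟩ := hA a
  obtain ⟨a₂, b₂, hb₂, e₂⟩ := hA b
  have h1 : φ (b₁ : S) ≠ 0 := fun h0 => by
    rw [h.ker _ h0] at hb₁
    exact zero_ne_one hb₁
  have h2 : φ (b₂ : S) ≠ 0 := fun h0 => by
    rw [h.ker _ h0] at hb₂
    exact zero_ne_one hb₂
  have e₁' : φ a * φ b₁ = φ a₁ := by rw [← map_mul, e₁]
  have e₂' : φ b * φ b₂ = φ a₂ := by rw [← map_mul, e₂]
  refine ⟨a₁ * b₂, a₂ * b₁, ?_, ?_⟩
  · push_cast
    rw [map_mul, ← e₂']
    exact mul_ne_zero (mul_ne_zero hb h2) h1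
  · push_cast
    rw [map_mul, map_mul, ← e₂', ← e₁', ← hl]
    ring

/-- The image of `A`. -/
abbrev img (φ : S →ₐ[k] L) (A : Subalgebra k S) : Subalgebra k L := A.map φ

theorem img_fg (φ : S →ₐ[k] L) {A : Subalgebra k S} (hA : A.FG) : (img φ A).FG := hA.map φ

theorem frac_img (h : EPt φ res) {A : Subalgebra k S}
    (hA : ∀ s : S, ∃ a b : A, res b = 1 ∧ s * b = a) (l : L) :
    ∃ a b : img φ A, (b : L) ≠ 0 ∧ l * b = a := by
  obtain ⟨a, b, hb, hl⟩ := frac_A h hA l
  exact ⟨⟨φ a, a, a.2, rfl⟩, ⟨φ b, b, b.2, rfl⟩, hb, hl⟩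

theorem fg_top (h : EPt φ res) : (⊤ : IntermediateField k L).FG := by
  obtain ⟨A, hA, hs⟩ := h.fg
  exact fg_top_of_frac (img_fg φ hA) (frac_img h hs)

theorem isAlgebraic_img (h : EPt φ res) {A : Subalgebra k S}
    (hA : ∀ s : S, ∃ a b : A, res b = 1 ∧ s * b = a) (l : L) : IsAlgebraic (img φ A) l := by
  obtain ⟨a, b, hb, hl⟩ := frac_img h hA l
  have h1 : l = (a : L) * (b : L)⁻¹ := by rw [← hl, mul_inv_cancel_right₀ hb]
  rw [h1]
  exact (isAlgebraic_algebraMap (R := img φ A) (A := L) a).mul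
    (isAlgebraic_algebraMap (R := img φ A) (A := L) b).inv

/-- `A → ncl (φ A)`. -/
def toN (φ : S →ₐ[k] L) (A : Subalgebra k S) : A →ₐ[k] ncl (img φ A) where
  toFun a := ⟨φ a, le_ncl _ ⟨a, a.2, rfl⟩⟩
  map_one' := Subtype.ext (map_one φ)
  map_mul' a b := Subtype.ext (map_mul φ (a : S) b)
  map_zero' := Subtype.ext (map_zero φ)
  map_add' a b := Subtype.ext (map_add φ (a : S) b)
  commutes' c := Subtype.ext (φ.commutes c)

theorem toN_coe (a : S) (A : Subalgebra k S) (ha : a ∈ A) : ((toN φ A ⟨a, ha⟩ : _) : L) = φ a :=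
  rfl

theorem toN_finite [PerfectField k] (h : EPt φ res) {A : Subalgebra k S} (hfg : A.FG)
    (hA : ∀ s : S, ∃ a b : A, res b = 1 ∧ s * b = a) : (toN φ A).toRingHom.Finite := by
  have h1 := finite_ncl (fg_top h) (img φ A) (img_fg φ hfg) (isAlgebraic_img h hA)
  let f : A →+* img φ A :=
    { toFun := fun a => ⟨φ a, a, a.2, rfl⟩
      map_one' := Subtype.ext (map_one φ)
      map_mul' := fun a b => Subtype.ext (map_mul φ (a : S) b)
      map_zero' := Subtype.ext (map_zero φ)
      map_add' := fun a b => Subtype.ext (map_add φ (a : S) b) }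
  have hf : Function.Surjective f := by
    rintro ⟨_, a, ha, rfl⟩
    exact ⟨⟨a, ha⟩, rfl⟩
  let g : img φ A →+* ncl (img φ A) := (Subalgebra.inclusion (le_ncl (img φ A))).toRingHom
  have hg : g.Finite := by
    let e : integralClosure (img φ A) L →+* ncl (img φ A) :=
      { toFun := fun a => ⟨a, a.2⟩
        map_one' := rfl
        map_mul' := fun _ _ => rfl
        map_zero' := rfl
        map_add' := fun _ _ => rfl }
    have he : Function.Surjective e := fun a => ⟨⟨a, a.2⟩, rfl⟩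
    have h2 : (algebraMap (img φ A) (integralClosure (img φ A) L)).Finite :=
      RingHom.finite_algebraMap.2 h1
    have h3 : g = e.comp (algebraMap (img φ A) (integralClosure (img φ A) L)) := rfl
    rw [h3]
    exact (RingHom.Finite.of_surjective e he).comp h2
  have h4 : (toN φ A).toRingHom = g.comp f := rfl
  rw [h4]
  exact hg.comp (RingHom.Finite.of_surjective f hf)

/-- The centre of a valuation which is at most one. -/
def cent {R : Type*} [CommRing R] (v : Valuation R ℤᵐ⁰) (hv : ∀ b, v b ≤ 1) : Ideal R where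
  carrier := {b | v b < 1}
  add_mem' := fun {a b} ha hb => lt_of_le_of_lt (v.map_add a b) (max_lt ha hb)
  zero_mem' := by
    change v 0 < 1
    rw [map_zero]
    exact zero_lt_one
  smul_mem' := fun c {a} ha => by
    change v (c * a) < 1
    rw [map_mul]
    exact lt_of_le_of_lt (mul_le_of_le_one_left' (hv c)) ha

theorem cent_prime {R : Type*} [CommRing R] (v : Valuation R ℤᵐ⁰) (hv : ∀ b, v b ≤ 1) :
    (cent v hv).IsPrime := by
  refine Ideal.isPrime_iff.2 ⟨fun h => ?_, fun {a b} hab => ?_⟩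
  · have h1 : (1 : R) ∈ cent v hv := by rw [h]; trivial
    have h2 : v 1 < 1 := h1
    rw [map_one] at h2
    exact lt_irrefl _ h2
  · by_contra hcon
    rw [not_or] at hcon
    have h1 : v a = 1 := le_antisymm (hv a) (not_lt.1 hcon.1)
    have h2 : v b = 1 := le_antisymm (hv b) (not_lt.1 hcon.2)
    have h3 : v (a * b) < 1 := hab
    rw [map_mul, h1, h2, one_mul] at h3
    exact lt_irrefl _ h3

/-- The residue map of a prime which lies over the point. -/
theorem exists_pt_of_prime [IsAlgClosed k] {A B : Type u} [CommRing A] [Algebra k A] [CommRing B]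
    [Algebra k B] (ψ : A →ₐ[k] B) (hψ : (ψ : A →+* B).IsIntegral) (x : A →ₐ[k] k) (n : Ideal B)
    [n.IsPrime] (hn : ∀ a, x a = 0 → ψ a ∈ n) :
    ∃ y : B →ₐ[k] k, (∀ b, y b = 0 ↔ b ∈ n) ∧ ∀ a, y (ψ a) = x a := by
  have hint : Algebra.IsIntegral k (B ⧸ n) := by
    refine ⟨fun b => ?_⟩
    obtain ⟨b, rfl⟩ := Ideal.Quotient.mk_surjective b
    obtain ⟨P, hP, hP0⟩ := hψ b
    refine ⟨P.map (x : A →+* k), hP.map _, ?_⟩
    have hcomp : (algebraMap k (B ⧸ n)).comp (x : A →+* k) =
        (Ideal.Quotient.mk n).comp (ψ : A →+* B) := by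
      refine RingHom.ext fun a => ?_
      change algebraMap k (B ⧸ n) (x a) = Ideal.Quotient.mk n (ψ a)
      have h1 : ψ (a - algebraMap k A (x a)) ∈ n := hn _ (by
        rw [map_sub, AlgHom.commutes]
        exact sub_self _)
      rw [map_sub, AlgHom.commutes] at h1
      exact ((Ideal.Quotient.eq (I := n)).2 h1).symm
    rw [Polynomial.eval₂_map, hcomp, ← Polynomial.hom_eval₂, hP0, map_zero]
  have hbij := IsAlgClosed.algebraMap_bijective_of_isIntegral (k := k) (K := B ⧸ n)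
  let e : k ≃ₐ[k] (B ⧸ n) := AlgEquiv.ofBijective (Algebra.ofId k (B ⧸ n)) hbij
  refine ⟨(e.symm : (B ⧸ n) →ₐ[k] k).comp (Ideal.Quotient.mkₐ k n), fun b => ?_, fun a => ?_⟩
  · change e.symm (Ideal.Quotient.mk n b) = 0 ↔ _
    rw [EmbeddingLike.map_eq_zero_iff, Ideal.Quotient.eq_zero_iff_mem]
  · change e.symm (Ideal.Quotient.mk n (ψ a)) = x a
    rw [AlgEquiv.symm_apply_eq]
    change _ = algebraMap k (B ⧸ n) (x a)
    have h1 : ψ (a - algebraMap k A (x a)) ∈ n := hn _ (by
      rw [map_sub, AlgHom.commutes]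
      exact sub_self _)
    rw [map_sub, AlgHom.commutes] at h1
    exact (Ideal.Quotient.eq (I := n)).2 h1

end H12

/-- **Completeness**: a place of `S` extends to a place of a normal point of `L` over `S`. -/
theorem exists_ext_pt [IsAlgClosed k] {φ : S →ₐ[k] L} {res : S →ₐ[k] k} (h : EPt φ res)
    (v : Valuation S ℤᵐ⁰) (hv : IsCv res v) (hker : ∀ a, φ a = 0 → v a = 0) :
    ∃ (T : Subalgebra k L) (resT : T →ₐ[k] k) (hT : ∀ s, φ s ∈ T) (v' : Valuation T ℤᵐ⁰)
      (N : ℕ), 0 < N ∧ NPt T resT ∧ (∀ s, resT ⟨φ s, hT s⟩ = res s) ∧ IsCv resT v' ∧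
      (∀ s, v' ⟨φ s, hT s⟩ = v s ^ N) ∧
      ∀ {m : ℕ} (f : Fin m → S), Proper φ res f →
        Proper T.val resT (fun i => (⟨φ (f i), hT (f i)⟩ : T)) := by
  classical
  obtain ⟨A, hfg, hA⟩ := h.fg
  have hfin := H12.toN_finite h hfg hA
  -- extension to the normalisation
  obtain ⟨v₂, N, hN, hv₂, hv₂1⟩ : ∃ (v₂ : Valuation (ncl (H12.img φ A)) ℤᵐ⁰) (N : ℕ), 0 < N ∧
      (∀ a : A, v₂ (H12.toN φ A a) = v (a : S) ^ N) ∧ ∀ b, v₂ b ≤ 1 := by
    let _ : Algebra A (ncl (H12.img φ A)) := (H12.toN φ A).toRingHom.toAlgebra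
    have hmf : Module.Finite A (ncl (H12.img φ A)) := hfin
    obtain ⟨v₂, N, hN, h2⟩ := H12.ext_ring (B := A) (B' := ncl (H12.img φ A))
      (v.comap (A.val : A →+* S)) (by
        intro a ha
        have h3 : φ (a : S) = 0 := congrArg (fun t : ncl (H12.img φ A) => (t : L)) ha
        exact hker _ h3)
    exact ⟨v₂, N, hN, h2, H12.ext_le_one h2 fun a => hv.le _⟩
  -- the point
  let n := H12.cent v₂ hv₂1
  have hn : n.IsPrime := H12.cent_prime v₂ hv₂1
  obtain ⟨y, hy0, hyA⟩ := H12.exists_pt_of_prime (H12.toN φ A) hfin.to_isIntegral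
    (res.comp A.val) n (by
      intro a ha
      change v₂ _ < 1
      rw [hv₂]
      exact pow_lt_one₀ zero_le (hv.lt _ ha) hN.ne')
  have hyv : ∀ b, y b ≠ 0 → v₂ b = 1 := by
    intro b hb
    refine le_antisymm (hv₂1 b) (not_lt.1 fun h1 => hb ((hy0 b).2 h1))
  have hyA' : ∀ (a : S) (ha : a ∈ A), y (H12.toN φ A ⟨a, ha⟩) = res a := fun a ha => hyA ⟨a, ha⟩
  set T := locx (ncl (H12.img φ A)) y with hTdef
  have hT : ∀ s, φ s ∈ T := by
    intro s
    obtain ⟨a, b, hb, hab⟩ := hA s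
    refine ⟨H12.toN φ A a, H12.toN φ A b, ?_, ?_⟩
    · rw [hyA' b b.2, hb]
      exact one_ne_zero
    · change φ s * φ b = φ a
      rw [← map_mul, hab]
  -- the extension to the local ring
  have hS : (idl y).primeCompl ≤ v₂.supp.primeCompl := by
    intro b hb h0
    have h1 := hyv b fun h2 => hb h2
    rw [(Valuation.mem_supp_iff _ _).1 h0] at h1
    exact zero_ne_one h1
  let v' : Valuation T ℤᵐ⁰ := v₂.extendToLocalization hS T
  have hv'a : ∀ b : ncl (H12.img φ A), v' (algebraMap _ T b) = v₂ b := fun b =>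
    Valuation.extendToLocalization_apply_map_apply _ _ _ b
  have hloc : ∀ t : T, ∃ b c : ncl (H12.img φ A), y c ≠ 0 ∧ t * algebraMap _ T c = algebraMap _ T b
      ∧ v' t = v₂ b := by
    intro t
    obtain ⟨b, c, hc, hbc⟩ := t.2
    have h1 : t * algebraMap _ T c = algebraMap _ T b := Subtype.ext hbc
    refine ⟨b, c, hc, h1, ?_⟩
    have h2 := congrArg v' h1
    rw [map_mul, hv'a, hv'a, hyv c hc, mul_one] at h2
    exact h2
  have hev : ∀ b : ncl (H12.img φ A), evx _ y (algebraMap _ T b) = y b := fun b => evx_coe b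
  have hsurj : ∀ s : S, ∃ a b : A, v (s : S) = v (a : S) ∧ res s = res a ∧ res b = 1 ∧
      (⟨φ s, hT s⟩ : T) * algebraMap _ T (H12.toN φ A b) = algebraMap _ T (H12.toN φ A a) := by
    intro s
    obtain ⟨a, b, hb, hab⟩ := hA s
    refine ⟨a, b, ?_, ?_, hb, Subtype.ext ?_⟩
    · have h1 := congrArg v hab
      rw [map_mul, hv.one b (by rw [hb]; exact one_ne_zero), mul_one] at h1
      exact h1
    · have h1 := congrArg res hab
      rw [map_mul, hb, mul_one] at h1
      exact h1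
    · change φ s * φ b = φ a
      rw [← map_mul, hab]
  have hvφ : ∀ s, v' ⟨φ s, hT s⟩ = v s ^ N := by
    intro s
    obtain ⟨a, b, h1, -, h3, h4⟩ := hsurj s
    have h5 := congrArg v' h4
    rw [map_mul, hv'a, hv'a, hv₂, hv₂, hv.one b (by rw [h3]; exact one_ne_zero), one_pow,
      mul_one] at h5
    rw [h5, h1]
  have hresφ : ∀ s, evx _ y ⟨φ s, hT s⟩ = res s := by
    intro s
    obtain ⟨a, b, -, h2, h3, h4⟩ := hsurj s
    have h5 := congrArg (evx _ y) h4
    rw [map_mul, hev, hev, hyA' b b.2, hyA' a a.2, h3, mul_one] at h5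
    rw [h5, h2]
  have hnpt : NPt T (evx _ y) := by
    refine H12.npt_locx (ncl_ncl _).le
      (ncl_fg (H12.fg_top h) _ (H12.img_fg φ hfg) (H12.isAlgebraic_img h hA)) y ?_
    intro l
    obtain ⟨a, b, hb, hl⟩ := H12.frac_img h hA l
    exact ⟨⟨a, le_ncl _ a.2⟩, ⟨b, le_ncl _ b.2⟩, hb, hl⟩
  refine ⟨T, evx _ y, hT, v', N, hN, hnpt, hresφ, ⟨?_, ?_, ?_, ?_⟩, hvφ, ?_⟩
  · intro t
    obtain ⟨b, c, hc, h1, h2⟩ := hloc t
    rw [h2]
    exact hv₂1 b
  · intro t ht
    obtain ⟨b, c, hc, h1, h2⟩ := hloc t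
    rw [h2]
    have h3 := congrArg (evx _ y) h1
    rw [map_mul, ht, zero_mul, hev] at h3
    exact (hy0 b).1 h3.symm
  · intro t ht
    obtain ⟨b, c, hc, h1, h2⟩ := hloc t
    rw [h2]
    have h3 := congrArg (evx _ y) h1
    rw [map_mul, hev, hev] at h3
    exact hyv b (by rw [← h3]; exact mul_ne_zero ht hc)
  · obtain ⟨s, hs, hs0⟩ := hv.ne
    refine ⟨⟨φ s, hT s⟩, ?_, ?_⟩
    · rw [hresφ, hs]
    · rw [hvφ]
      exact pow_ne_zero N hs0
  · intro m f hf
    refine ⟨fun i => ?_, fun Q hQ _ hfQ => ?_⟩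
    · rw [hresφ]
      exact hf.1 i
    · have hQle : Q ≤ RingHom.ker (evx _ y) := hnpt.le_ker Q hQ.ne_top
      let g : S →+* T :=
        { toFun := fun s => ⟨φ s, hT s⟩
          map_one' := Subtype.ext (map_one φ)
          map_mul' := fun a b => Subtype.ext (map_mul φ a b)
          map_zero' := Subtype.ext (map_zero φ)
          map_add' := fun a b => Subtype.ext (map_add φ a b) }
      have hQ₀ : Q.comap g = RingHom.ker res := by
        refine hf.2 _ (Ideal.IsPrime.comap g) ?_ fun i => hfQ i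
        intro s hs
        have h1 : g s = 0 := Subtype.ext ((RingHom.mem_ker).1 hs)
        rw [Ideal.mem_comap, h1]
        exact Q.zero_mem
      have hP : (Q.comap (algebraMap (ncl (H12.img φ A)) T)) = idl y := by
        have hmax : (Q.comap (algebraMap (ncl (H12.img φ A)) T)).IsMaximal := by
          refine Ideal.isMaximal_of_isIntegral_of_isMaximal_comap' (H12.toN φ A).toRingHom
            hfin.to_isIntegral _ ?_
          have h1 : (Q.comap (algebraMap (ncl (H12.img φ A)) T)).comap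
              (H12.toN φ A).toRingHom = RingHom.ker (res.comp A.val) := by
            ext a
            have h2 : (a : S) ∈ Q.comap g ↔ (a : S) ∈ RingHom.ker res := by rw [hQ₀]
            exact h2
          rw [h1]
          exact RingHom.ker_isMaximal_of_surjective _ fun c =>
            ⟨algebraMap k A c, AlgHom.commutes _ c⟩
        refine hmax.eq_of_le (maxIdl y).ne_top ?_
        intro b hb
        have h1 := hQle (Ideal.mem_comap.1 hb)
        rw [RingHom.mem_ker, hev] at h1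
        exact h1
      refine le_antisymm hQle ?_
      intro t ht
      obtain ⟨b, c, hc, h1, -⟩ := hloc t
      have h3 := congrArg (evx _ y) h1
      rw [map_mul, (RingHom.mem_ker).1 ht, zero_mul, hev] at h3
      have h4 : b ∈ idl y := h3.symm
      rw [← hP, Ideal.mem_comap, ← h1] at h4
      refine (hQ.mem_or_mem h4).resolve_right fun h5 => ?_
      have h6 := hQle h5
      rw [RingHom.mem_ker, hev] at h6
      exact hc h6

end EPt

section inst

variable {k K : Type u} [Field k] [Field K] [Algebra k K] {S : Subalgebra k K} {res : S →ₐ[k] k}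

theorem NPt.exists_fg (h : NPt S res) : ∃ A : Subalgebra k S, A.FG ∧
    ∀ s : S, ∃ a b : A, res b = 1 ∧ s * b = a := by
  obtain ⟨A, hA, hAS, hs⟩ := h.fg
  have hft : Algebra.FiniteType k A := (Subalgebra.fg_iff_finiteType A).1 hA
  refine ⟨(Subalgebra.inclusion hAS).range, ?_, fun s => ?_⟩
  · rw [← Algebra.map_top]
    exact (Algebra.FiniteType.out (R := k) (A := A)).map _
  · obtain ⟨a, b, hb, hab⟩ := hs s
    exact ⟨⟨_, a, rfl⟩, ⟨_, b, rfl⟩, hb, Subtype.ext hab⟩

theorem NPt.ept_val (h : NPt S res) : EPt S.val res where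
  fg := h.exists_fg
  frac := fun l => h.frac l
  ker := fun a ha => by
    rw [show a = 0 from Subtype.ext ha, map_zero]

theorem NPt.ept_toRes (h : NPt S res) {V : ValuationSubring K} :
    EPt (toRes S V) res where
  fg := h.exists_fg
  frac := fun l => by
    obtain ⟨⟨a, b⟩, hab⟩ := IsLocalization.surj (nonZeroDivisors (S ⧸ cen S V)) l
    obtain ⟨a, rfl⟩ := Ideal.Quotient.mk_surjective a
    obtain ⟨b, hb⟩ := b
    obtain ⟨b, rfl⟩ := Ideal.Quotient.mk_surjective b
    refine ⟨a, b, ?_, hab⟩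
    intro h0
    have h1 : algebraMap S (cen S V).ResidueField b = 0 := h0
    rw [Ideal.algebraMap_residueField_eq_zero] at h1
    exact nonZeroDivisors.ne_zero hb (Ideal.Quotient.eq_zero_iff_mem.2 h1)
  ker := fun a ha => by
    have h1 : algebraMap S (cen S V).ResidueField a = 0 := ha
    rw [Ideal.algebraMap_residueField_eq_zero] at h1
    exact h.le_ker _ (cen_prime S V).ne_top h1

end inst

end Pool.Agent.TGJ
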