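import Pool.Agent.Lib.TGJ_h12.Compl
import Pool.Agent.Lib.TGJ_h88.Pts2

/-!
# TANK G, block C, F2: completeness, for the points of the integral closure of the image
-/

set_option autoImplicit false

namespace Pool.Agent.TGJ

open Pool.Agent.TG (ncl le_ncl ncl_mono ncl_ncl)
open Pool.Agent.TGJ88
open scoped WithZero

universe u

variable {k S L : Type u} [Field k] [CommRing S] [Algebra k S] [Field L] [Algebra k L]
  {φ : S →ₐ[k] L} {res : S →ₐ[k] k}

theorem LocK.ept (hL : LocK res) (hfr : FracOf φ) : EPt φ res where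
  fg := hL.fg
  frac := hfr
  ker := fun a ha => by
    by_contra h0
    exact ((hL.unit a h0).map φ).ne_zero ha

/-- **Completeness**: every place of `S` is the restriction, up to equivalence, of a place of a
point of the integral closure of the image. -/
theorem exists_ext_y [IsAlgClosed k] (hL : LocK res) (hfr : FracOf φ) (v' : Valuation S ℤᵐ⁰)
    (hv' : IsCv res v') (hker : ∀ a, φ a = 0 → v' a = 0) :
    ∃ y : Bn φ →ₐ[k] k, IsY φ res y ∧ ∃ v'' : Valuation (locx (Bn φ) y) ℤᵐ⁰,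
      IsCv (evx (Bn φ) y) v'' ∧ (v''.comap (toP φ y).toRingHom).IsEquiv v' := by
  obtain ⟨T, resT, hT, v₁, N, hN, hnpt, hres, hcv, hv₁, -⟩ :=
    exists_ext_pt (hL.ept hfr) v' hv' hker
  have hrange : φ.range ≤ T := by
    rintro _ ⟨s, rfl⟩
    exact hT s
  have hB : Bn φ ≤ T := (ncl_mono hrange).trans hnpt.ncl_le
  let y : Bn φ →ₐ[k] k := resT.comp (Subalgebra.inclusion hB)
  have hy : IsY φ res y := AlgHom.ext fun s => hres s
  have hyB : ∀ b : Bn φ, y b = resT ⟨b, hB b.2⟩ := fun b => rfl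
  have hle : locx (Bn φ) y ≤ T := by
    rintro t ⟨b, c, hc, h⟩
    have hc0 : (c : L) ≠ 0 := ne_zero_of_ev hc
    have h1 : (c : L)⁻¹ ∈ T := hnpt.inv ⟨c, hB c.2⟩ hc
    have h2 : t = (b : L) * (c : L)⁻¹ := by rw [← h, mul_inv_cancel_right₀ hc0]
    rw [h2]
    exact mul_mem (hB b.2) h1
  have hev : ∀ t : locx (Bn φ) y, evx (Bn φ) y t = resT ⟨t, hle t.2⟩ := by
    intro t
    have h1 := (npt_y hL hfr hy).res_unique (resT.comp (Subalgebra.inclusion hle))
    exact (DFunLike.congr_fun h1 t).symm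
  refine ⟨y, hy, v₁.comap (Subalgebra.inclusion hle).toRingHom, ⟨?_, ?_, ?_, ?_⟩, ?_⟩
  · intro t
    exact hcv.le _
  · intro t ht
    exact hcv.lt _ (by rw [hev] at ht; exact ht)
  · intro t ht
    exact hcv.one _ (by rw [hev] at ht; exact ht)
  · obtain ⟨s, hs, hs0⟩ := hv'.ne
    refine ⟨toP φ y s, ?_, ?_⟩
    · rw [evx_toP hy, hs]
    · change v₁ ⟨φ s, hT s⟩ ≠ 0
      rw [hv₁]
      exact pow_ne_zero N hs0
  · intro a b
    change v₁ ⟨φ a, hT a⟩ ≤ v₁ ⟨φ b, hT b⟩ ↔ _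
    rw [hv₁, hv₁]
    exact pow_le_pow_iff_left₀ zero_le zero_le hN.ne'

end Pool.Agent.TGJ
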